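import Mathlib
import Pool.Agent.Y205.WM.Main
import Pool.Agent.Results.MP_24ae9b_co.Wojcik

set_option autoImplicit false

/-!
# Union-closed families of minimum density: all minimisers

For every `n ≥ 1` the minimum density of a union-closed family on an `n`-element ground set is
determined explicitly, together with ALL families attaining it: they are the families
`P(S) ∪ {V}`, `|V| = n`, `|S| = k`, with `2 ^ k + k + 1 ≤ 2 n ≤ 2 ^ (k + 1) + k + 2`, and for
`n = 2` also the full power set.  The starting result (Wojcik) gives the value of the minimum; the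
uniqueness needs the equality case of Reimer's theorem (a union-closed family with `2 ^ k` members
and average size `k / 2` is a power set), and strict inequalities for all other families.
-/

namespace Pool.Agent.Results.MP_24ae9b_co.AllMinimisers

open Finset

/-- A family of finite sets is union-closed. -/
def UnionClosed (F : Finset (Finset ℕ)) : Prop := ∀ A ∈ F, ∀ B ∈ F, A ∪ B ∈ F

/-- The ground set of a family: the union of its members. -/
def ground (F : Finset (Finset ℕ)) : Finset ℕ := F.biUnion id

/-- The density of a family: the sum of the sizes of the members, divided by the size of the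
ground set times the number of members. -/
def density (F : Finset (Finset ℕ)) : ℚ :=
  (∑ A ∈ F, (A.card : ℚ)) / (((ground F).card : ℚ) * (F.card : ℚ))

/-- The family `W n k` of all subsets of a `k`-element set together with an `n`-element set. -/
def W (n k : ℕ) : Finset (Finset ℕ) := (range k).powerset ∪ {range n}

/-- `F` is one of the union-closed families with an `n`-element ground set that have the smallest
density. -/
def IsMinimiser (n : ℕ) (F : Finset (Finset ℕ)) : Prop :=
  F.Nonempty ∧ UnionClosed F ∧ (ground F).card = n ∧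
    ∀ G : Finset (Finset ℕ), G.Nonempty → UnionClosed G → (ground G).card = n →
      density F ≤ density G

/-- The sizes `k` of the optimal families `W n k`. -/
def Opt (n k : ℕ) : Prop := 2 ^ k + k + 1 ≤ 2 * n ∧ 2 * n ≤ 2 ^ (k + 1) + k + 2

/-- `n` times the density of `W n k` (used in the proof only) -/
def h (n k : ℕ) : ℚ := ((k : ℚ) * 2 ^ k + 2 * n) / (2 * (2 ^ k + 1))

lemma h_le_succ (n k : ℕ) : h n k ≤ h n (k + 1) ↔ 2 * n ≤ 2 ^ (k + 1) + k + 2 := by
  have hc : ((2 * n : ℕ) : ℚ) ≤ ((2 ^ (k + 1) + k + 2 : ℕ) : ℚ) ↔ 2 * n ≤ 2 ^ (k + 1) + k + 2 :=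
    Nat.cast_le
  rw [← hc]
  unfold h
  push_cast
  rw [div_le_div_iff₀ (by positivity) (by positivity), pow_succ]
  have hpos : (0 : ℚ) < 2 ^ k := by positivity
  generalize (2 : ℚ) ^ k = K at *
  have key : (((k : ℚ) + 1) * (K * 2) + 2 * n) * (2 * (K + 1)) -
      ((k : ℚ) * K + 2 * n) * (2 * (K * 2 + 1)) = 2 * K * ((K * 2 + k + 2) - 2 * n) := by ring
  constructor
  · intro h1
    have h2 : 0 ≤ 2 * K * ((K * 2 + k + 2) - 2 * n) := by linarith
    have h3 := nonneg_of_mul_nonneg_right h2 (by positivity)
    linarith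
  · intro h1
    have h2 : 0 ≤ 2 * K * ((K * 2 + k + 2) - 2 * n) :=
      mul_nonneg (by positivity) (by linarith)
    linarith

lemma h_succ_le (n k : ℕ) : h n (k + 1) ≤ h n k ↔ 2 ^ (k + 1) + k + 2 ≤ 2 * n := by
  have hc : ((2 ^ (k + 1) + k + 2 : ℕ) : ℚ) ≤ ((2 * n : ℕ) : ℚ) ↔ 2 ^ (k + 1) + k + 2 ≤ 2 * n :=
    Nat.cast_le
  rw [← hc]
  unfold h
  push_cast
  rw [div_le_div_iff₀ (by positivity) (by positivity), pow_succ]
  have hpos : (0 : ℚ) < 2 ^ k := by positivity
  generalize (2 : ℚ) ^ k = K at *
  have key : ((k : ℚ) * K + 2 * n) * (2 * (K * 2 + 1)) -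
      (((k : ℚ) + 1) * (K * 2) + 2 * n) * (2 * (K + 1)) = 2 * K * (2 * n - (K * 2 + k + 2)) := by
    ring
  constructor
  · intro h1
    have h2 : 0 ≤ 2 * K * (2 * n - (K * 2 + k + 2)) := by linarith
    have h3 := nonneg_of_mul_nonneg_right h2 (by positivity)
    linarith
  · intro h1
    have h2 : 0 ≤ 2 * K * (2 * n - (K * 2 + k + 2)) :=
      mul_nonneg (by positivity) (by linarith)
    linarith

lemma h_min (n k : ℕ) (hk : Opt n k) (l : ℕ) : h n k ≤ h n l := by
  rcases le_total k l with hl | hl
  · induction l, hl using Nat.le_induction with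
    | base => exact le_rfl
    | succ l hl ih =>
      refine ih.trans ((h_le_succ n l).2 (hk.2.trans ?_))
      have : 2 ^ (k + 1) ≤ 2 ^ (l + 1) := Nat.pow_le_pow_right (by norm_num) (by omega)
      omega
  · have : ∀ j, l ≤ j → j ≤ k → h n j ≤ h n l := by
      intro j hj
      induction j, hj using Nat.le_induction with
      | base => intro _; exact le_rfl
      | succ j hj ih =>
        intro hj'
        refine ((h_succ_le n j).2 ?_).trans (ih (by omega))
        have h1 : 2 ^ (j + 1) ≤ 2 ^ k := Nat.pow_le_pow_right (by norm_num) hj'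
        have := hk.1
        omega
    exact this k hl le_rfl

lemma sum_pow (S : Finset ℕ) : 2 * ∑ A ∈ S.powerset, (A.card : ℚ) = S.card * 2 ^ S.card := by
  induction S using Finset.induction_on with
  | empty => simp
  | insert v S hv ih =>
    rw [sum_powerset_insert hv, card_insert_of_notMem hv]
    have h2 : ∑ t ∈ S.powerset, ((insert v t).card : ℚ) = ∑ t ∈ S.powerset, ((t.card : ℚ) + 1) := by
      apply sum_congr rfl
      intro t ht
      rw [card_insert_of_notMem (fun h => hv (mem_powerset.1 ht h))]
      push_cast; rfl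
    rw [h2, sum_add_distrib, sum_const, card_powerset]
    simp only [nsmul_eq_mul, mul_one]
    push_cast
    rw [mul_add, mul_add, ih]
    ring

lemma ground_insert (V S : Finset ℕ) (hS : S ⊆ V) : ground (insert V S.powerset) = V := by
  ext x
  simp only [ground, mem_biUnion, mem_insert, mem_powerset, id]
  constructor
  · rintro ⟨A, rfl | hA, hx⟩
    · exact hx
    · exact hS (hA hx)
  · intro hx
    exact ⟨V, Or.inl rfl, hx⟩

lemma uc_insert (V S : Finset ℕ) (hS : S ⊆ V) : UnionClosed (insert V S.powerset) := by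
  intro A hA B hB
  simp only [mem_insert, mem_powerset] at hA hB ⊢
  rcases hA with rfl | hA <;> rcases hB with rfl | hB
  · left; simp
  · left; exact union_eq_left.2 (hB.trans hS)
  · left; exact union_eq_right.2 (hA.trans hS)
  · right; exact union_subset hA hB

lemma density_insert (V S : Finset ℕ) (hS : S ⊂ V) :
    density (insert V S.powerset) = h V.card S.card / V.card := by
  have hnot : V ∉ S.powerset := by
    rw [mem_powerset]
    exact hS.2
  have hcard : ((insert V S.powerset).card : ℚ) = 2 ^ S.card + 1 := by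
    rw [card_insert_of_notMem hnot, card_powerset]
    push_cast; ring
  have hsum : ∑ A ∈ insert V S.powerset, (A.card : ℚ) =
      ((S.card : ℚ) * 2 ^ S.card + 2 * V.card) / 2 := by
    rw [sum_insert hnot, ← sum_pow S]
    ring
  rw [density, ground_insert V S hS.1, hcard, hsum, h, div_div, div_div]
  congr 1
  ring

lemma W_eq (n k : ℕ) : W n k = insert (range n) (range k).powerset := by
  rw [W, union_comm]; rfl

lemma ground_mem (F : Finset (Finset ℕ)) (hF : F.Nonempty) (hUC : UnionClosed F) :
    ground F ∈ F := Wojcik.ground_mem F hF hUC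

/-- the minimum is a lower bound, in terms of `h` -/
lemma lower (n : ℕ) (hn : 1 ≤ n) (F : Finset (Finset ℕ)) (hF : F.Nonempty) (hUC : UnionClosed F)
    (hg : (ground F).card = n) : ∃ l, h n l / n ≤ density F := by
  obtain ⟨l, hl⟩ := Pool.Agent.H616R3.main_bound (ground F) F hUC (by
      intro A hA x hx
      simp only [ground, mem_biUnion, id]
      exact ⟨A, hA, hx⟩) (ground_mem F hF hUC)
  rw [hg] at hl
  have hn0 : (0 : ℚ) < n := by exact_mod_cast hn
  have hFc : (0 : ℚ) < F.card := by exact_mod_cast card_pos.2 hF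
  refine ⟨l, ?_⟩
  rw [density, hg, h, div_div, div_le_div_iff₀ (by positivity) (by positivity)]
  have hk'' : ((l : ℚ) * 2 ^ l + 2 * n) * F.card ≤
      2 * (∑ A ∈ F, (A.card : ℚ)) * (2 ^ l + 1) := by exact_mod_cast hl
  calc ((l : ℚ) * 2 ^ l + 2 * n) * (n * F.card)
      = (((l : ℚ) * 2 ^ l + 2 * n) * F.card) * n := by ring
    _ ≤ (2 * (∑ A ∈ F, (A.card : ℚ)) * (2 ^ l + 1)) * n := by gcongr
    _ = _ := by ring

/-- strict lower bound or one of the listed families -/
lemma strict (n : ℕ) (hn : 1 ≤ n) (F : Finset (Finset ℕ)) (hF : F.Nonempty) (hUC : UnionClosed F)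
    (hg : (ground F).card = n) : (∃ l, h n l / n < density F) ∨
      (∃ S, S ⊂ ground F ∧ F = insert (ground F) S.powerset) ∨
      (n = 2 ∧ F = (ground F).powerset) := by
  rcases Pool.Agent.Y205.WM.main_strict (ground F) F hUC (by
      intro A hA x hx
      simp only [ground, mem_biUnion, id]
      exact ⟨A, hA, hx⟩) (ground_mem F hF hUC) (by omega) with ⟨l, hl⟩ | h1 | h1
  · left
    rw [hg] at hl
    have hn0 : (0 : ℚ) < n := by exact_mod_cast hn
    have hFc : (0 : ℚ) < F.card := by exact_mod_cast card_pos.2 hF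
    refine ⟨l, ?_⟩
    rw [density, hg, h, div_div, div_lt_div_iff₀ (by positivity) (by positivity)]
    have hk'' : ((l : ℚ) * 2 ^ l + 2 * n) * F.card <
        2 * (∑ A ∈ F, (A.card : ℚ)) * (2 ^ l + 1) := by exact_mod_cast hl
    calc ((l : ℚ) * 2 ^ l + 2 * n) * (n * F.card)
        = (((l : ℚ) * 2 ^ l + 2 * n) * F.card) * n := by ring
      _ < (2 * (∑ A ∈ F, (A.card : ℚ)) * (2 ^ l + 1)) * n := by gcongr
      _ = _ := by ring
  · right; left; exact h1
  · right; right; rw [hg] at h1; exact h1

/-- there is an optimal size -/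
lemma exists_opt (n : ℕ) (hn : 1 ≤ n) : ∃ k, Opt n k := by
  have hex : ∃ k, 2 * n ≤ 2 ^ (k + 1) + k + 2 := by
    refine ⟨n, ?_⟩
    have : n < 2 ^ n := Nat.lt_two_pow_self
    have h2 : 2 ^ (n + 1) = 2 * 2 ^ n := by ring
    omega
  classical
  refine ⟨Nat.find hex, ?_, Nat.find_spec hex⟩
  rcases Nat.eq_zero_or_pos (Nat.find hex) with h0 | h0
  · rw [h0]; norm_num; omega
  · have h1 := Nat.find_min hex (m := Nat.find hex - 1) (by omega)
    obtain ⟨j, hj⟩ : ∃ j, Nat.find hex = j + 1 := ⟨Nat.find hex - 1, by omega⟩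
    rw [hj] at h1 ⊢
    simp only [Nat.add_sub_cancel] at h1
    omega

lemma opt_lt (n k : ℕ) (hk : Opt n k) : k < n := by
  have h1 := hk.1
  have : k < 2 ^ k := Nat.lt_two_pow_self
  omega

lemma isLeast_opt (n : ℕ) (hn : 1 ≤ n) (k : ℕ) (hk : Opt n k) :
    IsLeast {x : ℚ | ∃ F : Finset (Finset ℕ), F.Nonempty ∧ UnionClosed F ∧
        (ground F).card = n ∧ density F = x} (h n k / n) := by
  have hkn := opt_lt n k hk
  have hss : range k ⊂ range n := by
    rw [Finset.ssubset_iff_subset_ne]
    refine ⟨range_subset_range.2 hkn.le, ?_⟩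
    intro h
    have := congrArg card h
    simp at this
    omega
  constructor
  · refine ⟨insert (range n) (range k).powerset, insert_nonempty _ _, uc_insert _ _ hss.1, ?_, ?_⟩
    · rw [ground_insert _ _ hss.1, card_range]
    · rw [density_insert _ _ hss, card_range, card_range]
  · rintro x ⟨F, hF, hUC, hg, rfl⟩
    obtain ⟨l, hl⟩ := lower n hn F hF hUC hg
    refine le_trans ?_ hl
    gcongr
    exact h_min n k hk l

lemma isMin_iff (n : ℕ) (hn : 1 ≤ n) (k : ℕ) (hk : Opt n k) (F : Finset (Finset ℕ)) :
    IsMinimiser n F ↔ F.Nonempty ∧ UnionClosed F ∧ (ground F).card = n ∧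
      density F = h n k / n := by
  have hL := isLeast_opt n hn k hk
  constructor
  · rintro ⟨h1, h2, h3, h4⟩
    refine ⟨h1, h2, h3, le_antisymm ?_ (hL.2 ⟨F, h1, h2, h3, rfl⟩)⟩
    obtain ⟨G, g1, g2, g3, g4⟩ := hL.1
    rw [← g4]
    exact h4 G g1 g2 g3
  · rintro ⟨h1, h2, h3, h4⟩
    refine ⟨h1, h2, h3, ?_⟩
    intro G g1 g2 g3
    rw [h4]
    exact hL.2 ⟨G, g1, g2, g3, rfl⟩

/-- **All union-closed families of minimum density.**  For every `n ≥ 1`:
(1) the minimum density of a union-closed family with an `n`-element ground set is attained by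
`W n k` with `k` the floor or the ceiling of `log₂ n` (the assertion of the problem);
(2) there is `k` with `2 ^ k + k + 1 ≤ 2 n ≤ 2 ^ (k + 1) + k + 2`, the minimum is
`(k 2 ^ k + 2 n) / (2 n (2 ^ k + 1))` for every such `k`, and there is only one such `k` unless
`2 n = 2 ^ (k + 1) + k + 2`, when there are exactly two, `k` and `k + 1`;
(3) the families of minimum density are EXACTLY the families consisting of an `n`-element set `V`
and all subsets of a proper subset `S` of `V` with `|S|` one of the numbers `k` of (2), and, for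
`n = 2` only, the power set of a two-element set. -/
theorem result (n : ℕ) (hn : 1 ≤ n) :
    IsLeast {x : ℚ | ∃ F : Finset (Finset ℕ), F.Nonempty ∧ UnionClosed F ∧
        (ground F).card = n ∧ density F = x}
      (min (density (W n (Nat.log 2 n))) (density (W n (Nat.clog 2 n)))) ∧
    (∃ k, Opt n k) ∧
    (∀ k, Opt n k → IsLeast {x : ℚ | ∃ F : Finset (Finset ℕ), F.Nonempty ∧ UnionClosed F ∧
        (ground F).card = n ∧ density F = x}
      (((k : ℚ) * 2 ^ k + 2 * n) / (2 * n * (2 ^ k + 1)))) ∧
    (∀ k l, k < l → (Opt n k ∧ Opt n l ↔ l = k + 1 ∧ 2 * n = 2 ^ (k + 1) + k + 2)) ∧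
    (∀ F : Finset (Finset ℕ), IsMinimiser n F ↔
      (∃ V S : Finset ℕ, V.card = n ∧ S ⊂ V ∧ Opt n S.card ∧ F = insert V S.powerset) ∨
      (n = 2 ∧ ∃ V : Finset ℕ, V.card = 2 ∧ F = V.powerset)) := by
  have hn0 : (0 : ℚ) < n := by exact_mod_cast hn
  refine ⟨Wojcik.result n hn, exists_opt n hn, ?_, ?_, ?_⟩
  · intro k hk
    have h1 := isLeast_opt n hn k hk
    have h2 : ((k : ℚ) * 2 ^ k + 2 * n) / (2 * n * (2 ^ k + 1)) = h n k / n := by
      rw [h, div_div]
      congr 1
      ring
    rw [h2]
    exact h1
  · intro k l hkl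
    constructor
    · rintro ⟨h1, h2⟩
      have h3 : 2 ^ (k + 1) ≤ 2 ^ l := Nat.pow_le_pow_right (by norm_num) hkl
      have h4 := h1.2
      have h5 := h2.1
      omega
    · rintro ⟨rfl, h1⟩
      have h2 : 2 ^ (k + 1) = 2 * 2 ^ k := by ring
      have h3 : 2 ^ (k + 1 + 1) = 4 * 2 ^ k := by ring
      have h4 : 0 < 2 ^ k := by positivity
      unfold Opt
      rw [h3]
      rw [h2] at h1 ⊢
      omega
  · intro F
    obtain ⟨k, hk⟩ := exists_opt n hn
    rw [isMin_iff n hn k hk]
    constructor
    · rintro ⟨h1, h2, h3, h4⟩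
      rcases strict n hn F h1 h2 h3 with ⟨l, hl⟩ | ⟨S, hS, hFS⟩ | ⟨hn2, hFp⟩
      · exfalso
        rw [h4] at hl
        have h5 := h_min n k hk l
        have h6 : h n k / n ≤ h n l / n := by gcongr
        linarith
      · left
        refine ⟨ground F, S, h3, hS, ?_, hFS⟩
        have h5 : density F = h n S.card / n := by
          conv_lhs => rw [hFS]
          rw [density_insert _ _ hS, h3]
        rw [h5, div_left_inj' hn0.ne'] at h4
        have hcS : S.card < n := by rw [← h3]; exact card_lt_card hS
        constructor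
        · rcases Nat.eq_zero_or_pos S.card with h0 | h0
          · rw [h0]; norm_num; omega
          · obtain ⟨j, hj⟩ : ∃ j, S.card = j + 1 := ⟨S.card - 1, by omega⟩
            have h6 := h_min n k hk j
            rw [← h4, hj, h_succ_le] at h6
            rw [hj]
            omega
        · have h6 := h_min n k hk (S.card + 1)
          rw [← h4, h_le_succ] at h6
          exact h6
      · right
        refine ⟨hn2, ground F, ?_, hFp⟩
        rw [h3, hn2]
    · rintro (⟨V, S, hV, hS, hO, rfl⟩ | ⟨rfl, V, hV, rfl⟩)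
      · refine ⟨insert_nonempty _ _, uc_insert _ _ hS.1, by rw [ground_insert _ _ hS.1, hV], ?_⟩
        rw [density_insert _ _ hS, hV]
        congr 1
        exact le_antisymm (h_min n _ hO k) (h_min n k hk _)
      · have hg : ground V.powerset = V := by
          ext x
          simp only [ground, mem_biUnion, mem_powerset, id]
          constructor
          · rintro ⟨A, hA, hx⟩; exact hA hx
          · intro hx; exact ⟨V, Subset.rfl, hx⟩
        refine ⟨⟨V, mem_powerset.2 Subset.rfl⟩, ?_, by rw [hg, hV], ?_⟩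
        · intro A hA B hB
          rw [mem_powerset] at *
          exact union_subset hA hB
        · have h1 : h 2 k = h 2 1 := le_antisymm (h_min 2 k hk 1)
            (h_min 2 1 ⟨by norm_num, by norm_num⟩ k)
          rw [h1, density, hg, card_powerset, hV]
          have h2 := sum_pow V
          rw [hV] at h2
          norm_num at h2 ⊢
          rw [h]
          norm_num
          linarith

end Pool.Agent.Results.MP_24ae9b_co.AllMinimisers
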